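import Pool.Agent.helper34.MO.SpecA

/-! Project MO (MP_0631c5_co), row MOD: modification of a vertex. -/

set_option autoImplicit false

open Complex Finset

namespace Pool.Agent.MO

theorem MOD_arg (z : ℂ) (hz : 0 < z.re) : arg z = Real.arctan (z.im / z.re) := by
  have h := Complex.abs_arg_lt_pi_div_two_iff.2 (Or.inl hz)
  rw [abs_lt] at h
  rw [← Complex.tan_arg, Real.arctan_tan h.1 h.2]

/-- the entries of `addk` away from `(k, k)` -/
theorem MOD_addk_ne (F : ℕ → ℕ → ℂ) (k : ℕ) (z : ℂ) (x y : ℕ) (h : ¬ (x = k ∧ y = k)) :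
    addk F k z x y = F x y := by
  unfold addk
  rw [if_neg h, add_zero]

/-- the determinant of the matrix with row `k` replaced by the unit vector -/
theorem MOD_minor (F : ℕ → ℕ → ℂ) (S : Finset ℕ) (k : ℕ) (hk : k ∉ S) :
    (Matrix.updateRow (mS F (insert k S)) ⟨k, Finset.mem_insert_self k S⟩
      (Pi.single ⟨k, Finset.mem_insert_self k S⟩ (1 : ℂ))).det = detS F S := by
  rw [Matrix.twoBlockTriangular_det _ (fun i => i.1 ≠ k)]
  · have e2 : (Matrix.toSquareBlockProp (Matrix.updateRow (mS F (insert k S)) ⟨k, Finset.mem_insert_self k S⟩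
        (Pi.single ⟨k, Finset.mem_insert_self k S⟩ (1 : ℂ))) (fun i => ¬ i.1 ≠ k)).det = 1 := by
      have hsub : Subsingleton {i : (insert k S : Finset ℕ) // ¬ i.1 ≠ k} := by
        refine ⟨fun a b => ?_⟩
        apply Subtype.ext
        apply Subtype.ext
        rw [not_not.1 a.2, not_not.1 b.2]
      rw [Matrix.det_eq_elem_of_subsingleton _ ⟨⟨k, Finset.mem_insert_self k S⟩, not_not.2 rfl⟩]
      show (Matrix.updateRow (mS F (insert k S)) ⟨k, Finset.mem_insert_self k S⟩
        (Pi.single ⟨k, Finset.mem_insert_self k S⟩ (1 : ℂ))) ⟨k, Finset.mem_insert_self k S⟩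
        ⟨k, Finset.mem_insert_self k S⟩ = 1
      rw [Matrix.updateRow_self, Pi.single_eq_same]
    rw [e2, mul_one]
    unfold detS
    let e : {i : (insert k S : Finset ℕ) // i.1 ≠ k} ≃ S :=
      { toFun := fun i => ⟨i.1.1, Finset.mem_of_mem_insert_of_ne i.1.2 i.2⟩
        invFun := fun i => ⟨⟨i.1, Finset.mem_insert_of_mem i.2⟩, fun h => hk (h ▸ i.2)⟩
        left_inv := fun i => rfl
        right_inv := fun i => rfl }
    rw [← Matrix.det_submatrix_equiv_self e]
    congr 1
    ext i j
    show (Matrix.updateRow (mS F (insert k S)) ⟨k, Finset.mem_insert_self k S⟩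
        (Pi.single ⟨k, Finset.mem_insert_self k S⟩ (1 : ℂ))) i.1 j.1 = _
    rw [Matrix.updateRow_ne]
    · rfl
    · intro h
      exact i.2 (congrArg Subtype.val h)
  · intro i hi j hj
    have hik : i = ⟨k, Finset.mem_insert_self k S⟩ := Subtype.ext (not_not.1 hi)
    rw [hik, Matrix.updateRow_self, Pi.single_eq_of_ne]
    intro h
    exact hj (congrArg Subtype.val h)

/-- the determinant after the modification -/
theorem MOD_det (F : ℕ → ℕ → ℂ) (S : Finset ℕ) (k : ℕ) (z : ℂ) (hk : k ∉ S) :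
    detS (addk F k z) (insert k S) = detS F (insert k S) + z * detS F S := by
  have e1 : mS (addk F k z) (insert k S) = Matrix.updateRow (mS F (insert k S)) ⟨k, Finset.mem_insert_self k S⟩
      ((mS F (insert k S) : Matrix (insert k S : Finset ℕ) (insert k S : Finset ℕ) ℂ) ⟨k, Finset.mem_insert_self k S⟩ +
        z • (Pi.single ⟨k, Finset.mem_insert_self k S⟩ (1 : ℂ) : ↥(insert k S) → ℂ)) := by
    ext i j
    by_cases hi : i = ⟨k, Finset.mem_insert_self k S⟩
    · rw [hi, Matrix.updateRow_self, Pi.add_apply, Pi.smul_apply]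
      unfold mS
      rw [Matrix.of_apply, Matrix.of_apply]
      unfold addk
      by_cases hj : j = ⟨k, Finset.mem_insert_self k S⟩
      · rw [hj, Pi.single_eq_same, if_pos ⟨rfl, rfl⟩, smul_eq_mul, mul_one]
      · rw [Pi.single_eq_of_ne hj, smul_zero, if_neg (fun h => hj (Subtype.ext h.2))]
    · rw [Matrix.updateRow_ne hi]
      unfold mS
      rw [Matrix.of_apply, Matrix.of_apply, MOD_addk_ne]
      exact fun h => hi (Subtype.ext h.1)
  unfold detS
  rw [e1, Matrix.det_updateRow_add, Matrix.det_updateRow_smul, Matrix.updateRow_eq_self, MOD_minor F S k hk]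
  rfl

/-- accretivity after the modification -/
theorem MOD_acc (F : ℕ → ℕ → ℂ) (S : Finset ℕ) (k : ℕ) (z : ℂ) (hF : AccS F (insert k S)) (hz : 0 ≤ z.re) :
    AccS (addk F k z) (insert k S) := by
  intro x hx
  have h1 := hF x hx
  have e : ∑ i ∈ insert k S, ∑ j ∈ insert k S, (starRingEnd ℂ) (x i) * addk F k z i j * x j =
      ∑ i ∈ insert k S, ∑ j ∈ insert k S, (starRingEnd ℂ) (x i) * F i j * x j +
        z * ((Complex.normSq (x k) : ℝ) : ℂ) := by
    have e2 : ∑ i ∈ insert k S, ∑ j ∈ insert k S, (starRingEnd ℂ) (x i) * (if i = k ∧ j = k then z else 0) * x j =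
        z * ((Complex.normSq (x k) : ℝ) : ℂ) := by
      rw [Finset.sum_eq_single k, Finset.sum_eq_single k]
      · rw [if_pos ⟨rfl, rfl⟩, Complex.normSq_eq_conj_mul_self]
        ring
      · intro j _ hj
        rw [if_neg (fun h => hj h.2), mul_zero, zero_mul]
      · intro h
        exact absurd (Finset.mem_insert_self k S) h
      · intro i _ hi
        refine Finset.sum_eq_zero fun j _ => ?_
        rw [if_neg (fun h => hi h.1), mul_zero, zero_mul]
      · intro h
        exact absurd (Finset.mem_insert_self k S) h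
    rw [← e2, ← Finset.sum_add_distrib]
    refine Finset.sum_congr rfl fun i _ => ?_
    rw [← Finset.sum_add_distrib]
    refine Finset.sum_congr rfl fun j _ => ?_
    unfold addk
    ring
  rw [e, Complex.add_re, Complex.re_mul_ofReal]
  have := mul_nonneg hz (Complex.normSq_nonneg (x k))
  linarith

/-- the phase after the modification -/
theorem MOD_ph (hPHE : PHE_stmt) (hPHP : PHP_stmt) (F : ℕ → ℕ → ℂ) (S : Finset ℕ) (k : ℕ) (z : ℂ) (hk : k ∉ S)
    (hF : AccS F (insert k S)) (hz : 0 ≤ z.re) :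
    phS (addk F k z) (insert k S) = phS F S + arg (detS F (insert k S) / detS F S + z) := by
  obtain ⟨h1, h2, h3⟩ := hPHP F S k hk hF
  obtain ⟨h1', h2', h3'⟩ := hPHP (addk F k z) S k hk (MOD_acc F S k z hF hz)
  have hag : ∀ i ∈ S, ∀ j ∈ S, addk F k z i j = F i j := fun i hi j _ =>
    MOD_addk_ne F k z i j (fun h => hk (h.1 ▸ hi))
  obtain ⟨e1, e2, -⟩ := hPHE.2.2.1 (addk F k z) F S hag
  rw [h3', e1, e2, MOD_det F S k z hk, add_div, mul_div_cancel_right₀ _ h1]

theorem MOD (hPHE : PHE_stmt) (hPHP : PHP_stmt) : MOD_stmt := by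
  intro F S k z hk hF hz hz'
  refine ⟨MOD_acc F S k z hF hz, ?_⟩
  obtain ⟨h1, h2, h3⟩ := hPHP F S k hk hF
  rw [ MOD_ph hPHE hPHP F S k z hk hF hz, h3]
  generalize detS F (insert k S) / detS F S = r at h2
  have hrz : 0 < (r + z).re := by
    rw [Complex.add_re]
    linarith
  rcases le_or_gt 0 r.im with hr | hr
  · refine min_le_iff.2 (Or.inl ?_)
    have : 0 ≤ arg (r + z) := by
      rw [Complex.arg_nonneg_iff, Complex.add_im]
      linarith
    linarith
  · refine min_le_iff.2 (Or.inr ?_)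
    have : arg r ≤ arg (r + z) := by
      rw [ MOD_arg r h2, MOD_arg (r + z) hrz]
      apply Real.arctan_mono
      rw [div_le_div_iff₀ h2 hrz, Complex.add_im, Complex.add_re]
      nlinarith [mul_nonneg hz' h2.le, mul_nonneg hz (neg_nonneg.2 hr.le)]
    linarith

end Pool.Agent.MO
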