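import Pool.Agent.helper34.MO.SpecA
import Pool.Agent.helper53.MO.MOD

/-! Project MO (MP_0631c5_co), row LMK: deletion as a limit. -/

set_option autoImplicit false

open Complex Finset

namespace Pool.Agent.MO

theorem LMK_arg (r : ℂ) (hr : 0 < r.re) :
    Filter.Tendsto (fun x : ℝ => arg (r + (x : ℂ))) Filter.atTop (nhds 0) := by
  have h1 : Filter.Tendsto (fun x : ℝ => r.re + x) Filter.atTop Filter.atTop :=
    Filter.tendsto_atTop_add_const_left _ _ Filter.tendsto_id
  have h2 : Filter.Tendsto (fun x : ℝ => r.im / (r.re + x)) Filter.atTop (nhds 0) :=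
    h1.const_div_atTop r.im
  have h3 : Filter.Tendsto (fun x : ℝ => Real.arctan (r.im / (r.re + x))) Filter.atTop (nhds 0) := by
    have := (Real.continuous_arctan.tendsto 0).comp h2
    rwa [Real.arctan_zero] at this
  refine h3.congr' ?_
  filter_upwards [Filter.eventually_ge_atTop (0 : ℝ)] with x hx
  have hp : 0 < (r + (x : ℂ)).re := by
    rw [Complex.add_re, Complex.ofReal_re]
    linarith
  rw [ MOD_arg _ hp, Complex.add_re, Complex.ofReal_re, Complex.add_im, Complex.ofReal_im, add_zero]

theorem LMK (hPHE : PHE_stmt) (hPHP : PHP_stmt) (hMOD : MOD_stmt) : LMK_stmt := by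
  have _ := hMOD
  intro F S k hk hF
  obtain ⟨h1, h2, h3⟩ := hPHP F S k hk hF
  have h4 := (LMK_arg _ h2).const_add (phS F S)
  rw [add_zero] at h4
  refine h4.congr' ?_
  filter_upwards [Filter.eventually_ge_atTop (0 : ℝ)] with x hx
  rw [ MOD_ph hPHE hPHP F S k (x : ℂ) hk hF (by rwa [Complex.ofReal_re])]

end Pool.Agent.MO
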